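import Mathlib

/-!
Symmetric configurations `v_3`, their orientations and upper embeddings (definitions).
-/

namespace Q123.Conf

/-- A symmetric configuration `v_3`: points and blocks are indexed by `Fin v`, the block `b`
consists of the three distinct points `block b 0`, `block b 1`, `block b 2`, every point lies in
exactly three blocks, and two distinct points lie together in at most one block. -/
structure Config (v : ℕ) where
  block : Fin v → Fin 3 → Fin v
  injective : ∀ b, Function.Injective (block b)
  three_blocks : ∀ p, (Finset.univ.filter fun b => ∃ i, block b i = p).card = 3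
  linear : ∀ p q, p ≠ q → ∀ b b', (∃ i, block b i = p) → (∃ i, block b i = q) →
    (∃ i, block b' i = p) → (∃ i, block b' i = q) → b = b'

/-- The associated graph: two points are adjacent if they are distinct and lie in a common
block. -/
def Config.graph {v : ℕ} (X : Config v) : SimpleGraph (Fin v) where
  Adj p q := p ≠ q ∧ ∃ b i j, X.block b i = p ∧ X.block b j = q
  symm := ⟨fun _ _ ⟨h, b, i, j, hi, hj⟩ => ⟨h.symm, b, j, i, hj, hi⟩⟩
  loopless := ⟨fun _ ⟨h, _⟩ => h rfl⟩

/-- An orientation `ω` chooses for every block one of its two cyclic orders: `ω b = true` stands
for the order `block b 0 → block b 1 → block b 2 → block b 0` and `ω b = false` for the opposite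
one. `succ ω b i` is the index of the successor of the point `block b i`. -/
def succ {v : ℕ} (ω : Fin v → Bool) (b : Fin v) (i : Fin 3) : Fin 3 :=
  if ω b then i + 1 else i + 2

/-- A rotation system of a graph on `Fin v`: for every vertex `p` a cyclic order of the neighbours
of `p`, the neighbour after `q` is `rot p q`. Rotation systems of a connected graph describe its
cellular embeddings in oriented closed surfaces. -/
structure RotationSystem {v : ℕ} (G : SimpleGraph (Fin v)) where
  rot : Fin v → Fin v → Fin v
  adj : ∀ p q, G.Adj p q → G.Adj p (rot p q)
  cyclic : ∀ p q q', G.Adj p q → G.Adj p q' → ∃ k : ℕ, (rot p)^[k] q = q'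

/-- Face tracing: the face containing the dart `(p, q)` continues with the dart
`(q, rot q p)`. -/
def RotationSystem.step {v : ℕ} {G : SimpleGraph (Fin v)} (R : RotationSystem G)
    (d : Fin v × Fin v) : Fin v × Fin v := (d.2, R.rot d.2 d.1)

/-- The darts on the boundaries of the block faces. -/
def Config.IsBlockDart {v : ℕ} (X : Config v) (ω : Fin v → Bool) (d : Fin v × Fin v) : Prop :=
  ∃ b i, d = (X.block b i, X.block b (succ ω b i))

/-- The configuration is upper embeddable in the orientation `ω`: there is an embedding of the
associated graph in an oriented surface such that every block bounds a face, its boundary being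
traversed in the cyclic order chosen by `ω`, and such that all other darts lie on one face. -/
def Config.UpperEmbeddableIn {v : ℕ} (X : Config v) (ω : Fin v → Bool) : Prop :=
  ∃ R : RotationSystem X.graph,
    (∀ b i, R.step (X.block b i, X.block b (succ ω b i)) =
      (X.block b (succ ω b i), X.block b (succ ω b (succ ω b i)))) ∧
    ∀ d d' : Fin v × Fin v, X.graph.Adj d.1 d.2 → X.graph.Adj d'.1 d'.2 →
      ¬ X.IsBlockDart ω d → ¬ X.IsBlockDart ω d' → ∃ k : ℕ, R.step^[k] d = d'

end Q123.Conf
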