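import Mathlib
import Pool.Agent.Q123.Conf.Defs

/-!
A configuration `33_3`: basic facts.
-/

namespace Q123.Conf

/-- the blocks, written one after the other -/
def btab : List ℕ :=
    [0, 1, 3, 0, 2, 4, 1, 2, 19, 3, 4, 5, 0, 12, 26, 1, 6, 8, 6, 7, 9, 7, 8, 10, 8, 9, 11, 9,
    10, 5, 10, 11, 6, 11, 5, 7, 2, 13, 15, 13, 14, 16, 14, 15, 17, 15, 16, 18, 16, 17, 12, 17,
    18, 13, 18, 12, 14, 3, 20, 22, 20, 21, 23, 21, 22, 24, 22, 23, 25, 23, 24, 19, 24, 25, 20,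
    25, 19, 21, 4, 27, 29, 27, 28, 30, 28, 29, 31, 29, 30, 32, 30, 31, 26, 31, 32, 27, 32, 26,
    28]

/-- the blocks -/
def bl (b : Fin 33) (i : Fin 3) : Fin 33 := Fin.ofNat 33 (btab.getD (3 * b.val + i.val) 0)

/-- the flags (block, index) at a point, as codes `3 * b + i` -/
def ftab : List ℕ :=
    [0, 3, 12, 1, 6, 15, 4, 7, 36, 2, 9, 57, 5, 10, 78, 29, 34, 11, 16, 18, 32, 19, 21, 35, 17,
    22, 24, 20, 25, 27, 23, 28, 30, 26, 31, 33, 50, 55, 13, 37, 39, 53, 40, 42, 56, 38, 43, 45,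
    41, 46, 48, 44, 49, 51, 47, 52, 54, 71, 76, 8, 58, 60, 74, 61, 63, 77, 59, 64, 66, 62, 67,
    69, 65, 70, 72, 68, 73, 75, 92, 97, 14, 79, 81, 95, 82, 84, 98, 80, 85, 87, 83, 88, 90, 86,
    91, 93, 89, 94, 96]

/-- the three flags at a point -/
def fl (p : Fin 33) (t : Fin 3) : Fin 33 × Fin 3 :=
  (Fin.ofNat 33 (ftab.getD (3 * p.val + t.val) 0 / 3), Fin.ofNat 3 (ftab.getD (3 * p.val + t.val) 0))

lemma fl_bl : ∀ p t, bl (fl p t).1 (fl p t).2 = p := by decide +kernel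

lemma exists_fl : ∀ b i, ∃ t, fl (bl b i) t = (b, i) := by decide +kernel

lemma fl_inj : ∀ p t t', (fl p t).1 = (fl p t').1 → t = t' := by decide +kernel

lemma bl_inj : ∀ b i j, bl b i = bl b j → i = j := by decide +kernel

lemma bl_lin : ∀ p : Fin 33, ∀ t t' : Fin 3, t ≠ t' → ∀ i j,
    bl (fl p t).1 i = bl (fl p t').1 j → bl (fl p t).1 i = p := by decide +kernel

/-- the configuration `33_3` -/
def X0 : Config 33 where
  block := bl
  injective b i j h := bl_inj b i j h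
  three_blocks := by
    intro p
    have : (Finset.univ.filter fun b => ∃ i, bl b i = p) =
        Finset.univ.image fun t => (fl p t).1 := by
      ext b
      simp only [Finset.mem_filter, Finset.mem_univ, true_and, Finset.mem_image]
      constructor
      · rintro ⟨i, rfl⟩
        obtain ⟨t, ht⟩ := exists_fl b i
        exact ⟨t, by rw [ht]⟩
      · rintro ⟨t, rfl⟩
        exact ⟨_, fl_bl p t⟩
    rw [this, Finset.card_image_of_injective _ (fun t t' h => fl_inj p t t' h)]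
    rfl
  linear := by
    rintro p q hpq b b' ⟨i, hi⟩ ⟨j, hj⟩ ⟨i', hi'⟩ ⟨j', hj'⟩
    obtain ⟨t, ht⟩ := exists_fl b i
    obtain ⟨t', ht'⟩ := exists_fl b' i'
    rw [hi] at ht
    rw [hi'] at ht'
    by_contra hne
    have htt : t ≠ t' := by
      rintro rfl
      rw [ht] at ht'
      exact hne (congrArg Prod.fst ht')
    have h1 := bl_lin p t t' htt j j' (by rw [ht, ht']; exact hj.trans hj'.symm)
    rw [ht] at h1
    exact hpq (h1.symm.trans hj)

/-- distance in a spanning tree -/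
def rk : List ℕ := [0, 1, 1, 1, 1, 2, 2, 3, 2, 3, 3, 3, 1, 2, 2, 2, 2, 2, 2, 2, 2, 3, 2, 3, 3, 3, 1, 2, 2, 2, 2, 2, 2]

/-- parent in a spanning tree -/
def par : List ℕ := [0, 0, 0, 0, 0, 3, 1, 6, 1, 6, 6, 6, 0, 2, 12, 2, 12, 12, 12, 1, 3, 19, 3, 19, 19, 19, 0, 4, 26, 4, 26, 26, 26]

lemma par_ok : ∀ p : Fin 33, p = 0 ∨ (rk.getD (par.getD p.val 0) 0 < rk.getD p.val 0 ∧
    par.getD p.val 0 < 33 ∧
    ∃ t i, bl (fl p t).1 i = Fin.ofNat 33 (par.getD p.val 0) ∧ bl (fl p t).1 i ≠ p) := by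
  decide +kernel

lemma X0_adj_of (p : Fin 33) (t i : Fin 3) (h : bl (fl p t).1 i ≠ p) :
    X0.graph.Adj p (bl (fl p t).1 i) :=
  ⟨h.symm, (fl p t).1, (fl p t).2, i, fl_bl p t, rfl⟩

lemma reach (n : ℕ) : ∀ p : Fin 33, rk.getD p.val 0 = n → X0.graph.Reachable 0 p := by
  induction n using Nat.strong_induction_on with
  | _ n ih =>
    intro p hp
    rcases par_ok p with rfl | ⟨h1, h2, t, i, h3, h4⟩
    · rfl
    · have h5 := ih _ (hp ▸ h1) (Fin.ofNat 33 (par.getD p.val 0)) (by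
        congr 1
        exact Nat.mod_eq_of_lt h2)
      rw [← h3] at h5
      exact h5.trans (X0_adj_of p t i h4).symm.reachable

lemma X0_connected : X0.graph.Connected := by
  have : Nonempty (Fin 33) := ⟨0⟩
  refine ⟨fun p q => ?_⟩
  exact (reach _ p rfl).symm.trans (reach _ q rfl)

end Q123.Conf
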