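import Mathlib
import Pool.Agent.Q123.Conf.Example

/-!
The configuration is not upper embeddable in the second orientation: reduction to a statement
about the bits describing the rotations at the points.
-/

namespace Q123.Conf

/-- the second orientation: only the block `1` is reversed -/
def om2 : Fin 33 → Bool := fun b => decide (b ≠ 1)

/-- successor neighbour at a flag -/
def sF (f : Fin 33 × Fin 3) : Fin 33 := bl f.1 (succ om2 f.1 f.2)

/-- predecessor neighbour at a flag -/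
def rF (f : Fin 33 × Fin 3) : Fin 33 := bl f.1 (succ om2 f.1 (succ om2 f.1 f.2))

/-- enumeration of the neighbours of a point -/
def nb (p : Fin 33) (x : Fin 6) : Fin 33 :=
  if x.val % 2 = 0 then sF (fl p (Fin.ofNat 3 (x.val / 2)))
  else rF (fl p (Fin.ofNat 3 (x.val / 2)))

lemma nb_inj : ∀ p x y, nb p x = nb p y → x = y := by decide +kernel

lemma nb_mem : ∀ p : Fin 33, ∀ t i : Fin 3, bl (fl p t).1 i = p ∨
    ∃ x : Fin 6, nb p x = bl (fl p t).1 i := by decide +kernel

lemma nb_adj (p : Fin 33) (x : Fin 6) : X0.graph.Adj p (nb p x) := by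
  have h : ∀ p x, nb p x ≠ p := by decide +kernel
  have h1 := h p x
  unfold nb at h1 ⊢
  split_ifs at h1 ⊢
  · exact X0_adj_of p _ _ h1
  · exact X0_adj_of p _ _ h1

lemma adj_iff2 (p q : Fin 33) : X0.graph.Adj p q ↔ ∃ x, nb p x = q := by
  constructor
  · rintro ⟨hne, b, i, j, hi, hj⟩
    obtain ⟨t, ht⟩ := exists_fl b i
    have hi' : bl b i = p := hi
    have hj' : bl b j = q := hj
    rw [hi'] at ht
    rcases nb_mem p t j with h | ⟨x, hx⟩
    · rw [ht] at h
      exact absurd (h.symm.trans hj') hne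
    · rw [ht] at hx
      exact ⟨x, hx.trans hj'⟩
  · rintro ⟨x, rfl⟩
    exact nb_adj p x

/-- a cyclic permutation of six elements with prescribed values -/
lemma six (g : Fin 6 → Fin 6) (h : ∀ x y, ∃ k : ℕ, g^[k] x = y) (h1 : g 1 = 0) (h3 : g 3 = 2)
    (h5 : g 5 = 4) : (g 0 = 3 ∧ g 2 = 5 ∧ g 4 = 1) ∨ (g 0 = 5 ∧ g 2 = 1 ∧ g 4 = 3) := by
  have key : ∀ g0 g2 g4 : Fin 6, ((g0 = 3 ∧ g2 = 5 ∧ g4 = 1) ∨ (g0 = 5 ∧ g2 = 1 ∧ g4 = 3)) ∨
      ∃ S : Finset (Fin 6), (∃ x, x ∈ S) ∧ (∃ y, y ∉ S) ∧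
        ∀ x ∈ S, (![g0, 0, g2, 2, g4, 4] : Fin 6 → Fin 6) x ∈ S := by
    decide +kernel
  have hg : g = ![g 0, 0, g 2, 2, g 4, 4] := by
    funext x
    fin_cases x
    · rfl
    · exact h1
    · rfl
    · exact h3
    · rfl
    · exact h5
  rcases key (g 0) (g 2) (g 4) with h' | ⟨S, ⟨x, hx⟩, ⟨y, hy⟩, hS⟩
  · exact h'
  · exfalso
    rw [← hg] at hS
    obtain ⟨k, hk⟩ := h x y
    have : ∀ k : ℕ, g^[k] x ∈ S := by
      intro k
      induction k with
      | zero => exact hx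
      | succ k ih =>
        rw [Function.iterate_succ_apply']
        exact hS _ ih
    exact hy (hk ▸ this k)

/-- the rotation at a point is one of two -/
lemma two_rotations (R : RotationSystem X0.graph)
    (hR : ∀ b i, R.step (X0.block b i, X0.block b (succ om2 b i)) =
      (X0.block b (succ om2 b i), X0.block b (succ om2 b (succ om2 b i)))) (p : Fin 33) :
    (∀ t : Fin 3, R.rot p (sF (fl p t)) = rF (fl p (t + 1))) ∨
    (∀ t : Fin 3, R.rot p (sF (fl p t)) = rF (fl p (t + 2))) := by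
  have hex : ∀ x : Fin 6, ∃ y, nb p y = R.rot p (nb p x) := by
    intro x
    exact (adj_iff2 p _).1 (R.adj p _ (nb_adj p x))
  choose g hg using hex
  have hiter : ∀ (k : ℕ) (x : Fin 6), nb p (g^[k] x) = (R.rot p)^[k] (nb p x) := by
    intro k
    induction k with
    | zero => intro x; rfl
    | succ k ih =>
      intro x
      rw [Function.iterate_succ_apply, ih, Function.iterate_succ_apply, hg]
  have htrans : ∀ x y, ∃ k : ℕ, g^[k] x = y := by
    intro x y
    obtain ⟨k, hk⟩ := R.cyclic p _ _ (nb_adj p x) (nb_adj p y)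
    exact ⟨k, nb_inj p _ _ ((hiter k x).trans hk)⟩
  have hblock : ∀ t : Fin 3, R.rot p (rF (fl p t)) = sF (fl p t) := by
    intro t
    have h1 := hR (fl p t).1 (succ om2 (fl p t).1 (succ om2 (fl p t).1 (fl p t).2))
    have hs : ∀ (b : Fin 33) (i : Fin 3), succ om2 b (succ om2 b (succ om2 b i)) = i := by
      decide +kernel
    rw [hs] at h1
    have h2 := congrArg Prod.snd h1
    have h3 : X0.block (fl p t).1 (fl p t).2 = p := fl_bl p t
    simp only [RotationSystem.step] at h2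
    rw [h3] at h2
    exact h2
  have e0 : nb p 0 = sF (fl p 0) := rfl
  have e1 : nb p 1 = rF (fl p 0) := rfl
  have e2 : nb p 2 = sF (fl p 1) := rfl
  have e3 : nb p 3 = rF (fl p 1) := rfl
  have e4 : nb p 4 = sF (fl p 2) := rfl
  have e5 : nb p 5 = rF (fl p 2) := rfl
  have h1 : g 1 = 0 := nb_inj p _ _ (by rw [hg, e1, e0]; exact hblock 0)
  have h3 : g 3 = 2 := nb_inj p _ _ (by rw [hg, e3, e2]; exact hblock 1)
  have h5 : g 5 = 4 := nb_inj p _ _ (by rw [hg, e5, e4]; exact hblock 2)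
  rcases six g htrans h1 h3 h5 with ⟨a, b, c⟩ | ⟨a, b, c⟩
  · left
    intro t
    fin_cases t
    · have := hg 0
      rw [a, e3, e0] at this
      exact this.symm
    · have := hg 2
      rw [b, e5, e2] at this
      exact this.symm
    · have := hg 4
      rw [c, e1, e4] at this
      exact this.symm
  · right
    intro t
    fin_cases t
    · have := hg 0
      rw [a, e5, e0] at this
      exact this.symm
    · have := hg 2
      rw [b, e1, e2] at this
      exact this.symm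
    · have := hg 4
      rw [c, e3, e4] at this
      exact this.symm

/-- next flag for the positive rotation -/
def nP : List ℕ :=
    [4, 8, 11, 14, 6, 9, 17, 38, 70, 59, 80, 28, 2, 49, 91, 0, 20, 21, 31, 23, 24, 34, 26, 27,
    16, 29, 30, 19, 32, 33, 22, 35, 15, 25, 10, 18, 5, 41, 42, 52, 44, 45, 55, 47, 48, 37, 50,
    51, 40, 53, 54, 43, 56, 36, 46, 12, 39, 1, 62, 63, 73, 65, 66, 76, 68, 69, 58, 71, 72, 61,
    74, 75, 64, 77, 57, 67, 7, 60, 3, 83, 84, 94, 86, 87, 97, 89, 90, 79, 92, 93, 82, 95, 96,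
    85, 98, 78, 88, 13, 81]

/-- next flag for the negative rotation -/
def nM : List ℕ :=
    [14, 17, 59, 2, 38, 80, 0, 5, 75, 1, 3, 33, 4, 54, 96, 8, 31, 26, 15, 34, 29, 18, 16, 32,
    21, 19, 35, 24, 22, 10, 27, 25, 20, 30, 28, 23, 6, 52, 47, 36, 55, 50, 39, 37, 53, 42, 40,
    56, 45, 43, 12, 48, 46, 41, 51, 49, 44, 11, 73, 68, 57, 76, 71, 60, 58, 74, 63, 61, 77, 66,
    64, 7, 69, 67, 62, 72, 70, 65, 9, 94, 89, 78, 97, 92, 81, 79, 95, 84, 82, 98, 87, 85, 13,
    90, 88, 83, 93, 91, 86]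

/-- flag of a code -/
def fg (n : ℕ) : Fin 33 × Fin 3 := (Fin.ofNat 33 (n / 3), Fin.ofNat 3 n)

/-- the point of a flag -/
def pt (n : ℕ) : ℕ := btab.getD n 0

/-- dart of a flag -/
def dt (n : ℕ) : Fin 33 × Fin 33 := (sF (fg n), bl (fg n).1 (fg n).2)

lemma dt_inj : ∀ n m : Fin 99, dt n.val = dt m.val → n = m := by decide +kernel

lemma dt_ok : ∀ n : Fin 99, (dt n.val).2.val = pt n.val ∧ nP.getD n.val 0 < 99 ∧
    nM.getD n.val 0 < 99 ∧ ∃ t, fl (dt n.val).2 t = fg n.val ∧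
    dt (nP.getD n.val 0) = ((dt n.val).2, rF (fl (dt n.val).2 (t + 1))) ∧
    dt (nM.getD n.val 0) = ((dt n.val).2, rF (fl (dt n.val).2 (t + 2))) := by
  decide +kernel

/-- the face tracing map on flags -/
def Phi (ε : ℕ → Bool) (n : ℕ) : ℕ := if ε (pt n) then nP.getD n 0 else nM.getD n 0

lemma Phi_lt (ε : ℕ → Bool) (n : ℕ) (hn : n < 99) : Phi ε n < 99 := by
  obtain ⟨-, h1, h2, -⟩ := dt_ok ⟨n, hn⟩
  unfold Phi
  split_ifs
  · exact h1
  · exact h2

lemma dt_adj (n : ℕ) (hn : n < 99) : X0.graph.Adj (dt n).1 (dt n).2 := by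
  have key : ∀ n : Fin 99, (dt n.val).1 ≠ (dt n.val).2 := by decide +kernel
  exact ⟨key ⟨n, hn⟩, _, _, _, rfl, rfl⟩

lemma dt_not_block (n : ℕ) (hn : n < 99) : ¬ X0.IsBlockDart om2 (dt n) := by
  have key : ∀ n : Fin 99, ∀ b i, ¬ (dt n.val = (bl b i, bl b (succ om2 b i))) := by
    decide +kernel
  rintro ⟨b, i, h⟩
  exact key ⟨n, hn⟩ b i h

/-- an upper embedding gives bits for which the map on flags is transitive -/
lemma exists_bits (h : X0.UpperEmbeddableIn om2) :
    ∃ ε : ℕ → Bool, ∀ n m, n < 99 → m < 99 → ∃ k : ℕ, (Phi ε)^[k] n = m := by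
  classical
  obtain ⟨R, hR, hface⟩ := h
  let ε : ℕ → Bool := fun p =>
    decide (∀ t : Fin 3, R.rot (Fin.ofNat 33 p) (sF (fl (Fin.ofNat 33 p) t)) =
      rF (fl (Fin.ofNat 33 p) (t + 1)))
  have hstep : ∀ n, n < 99 → R.step (dt n) = dt (Phi ε n) := by
    intro n hn
    obtain ⟨h1, h2, h3, t, ht, hP, hM⟩ := dt_ok ⟨n, hn⟩
    simp only at h1 h2 h3 ht hP hM
    have hp : Fin.ofNat 33 (pt n) = (dt n).2 := by
      rw [← h1]
      exact Fin.ext (Nat.mod_eq_of_lt (dt n).2.2)
    have hd : (dt n).1 = sF (fl (dt n).2 t) := by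
      rw [ht]; rfl
    unfold Phi
    by_cases hε : ε (pt n) = true
    · rw [if_pos hε]
      have h4 : ∀ t : Fin 3, R.rot (dt n).2 (sF (fl (dt n).2 t)) = rF (fl (dt n).2 (t + 1)) := by
        have := of_decide_eq_true hε
        rw [hp] at this
        exact this
      rw [hP]
      show ((dt n).2, R.rot (dt n).2 (dt n).1) = _
      rw [hd, h4 t]
    · rw [if_neg hε]
      have h4 : ∀ t : Fin 3, R.rot (dt n).2 (sF (fl (dt n).2 t)) = rF (fl (dt n).2 (t + 2)) := by
        have h5 : ¬ ∀ t : Fin 3, R.rot (dt n).2 (sF (fl (dt n).2 t)) =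
            rF (fl (dt n).2 (t + 1)) := by
          intro h6
          apply hε
          have : ∀ t : Fin 3, R.rot (Fin.ofNat 33 (pt n)) (sF (fl (Fin.ofNat 33 (pt n)) t)) =
              rF (fl (Fin.ofNat 33 (pt n)) (t + 1)) := by
            rw [hp]; exact h6
          exact decide_eq_true this
        exact (two_rotations R hR (dt n).2).resolve_left h5
      rw [hM]
      show ((dt n).2, R.rot (dt n).2 (dt n).1) = _
      rw [hd, h4 t]
  have hiter : ∀ (k n : ℕ), n < 99 → (Phi ε)^[k] n < 99 ∧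
      R.step^[k] (dt n) = dt ((Phi ε)^[k] n) := by
    intro k
    induction k with
    | zero => intro n hn; exact ⟨hn, rfl⟩
    | succ k ih =>
      intro n hn
      rw [Function.iterate_succ_apply, Function.iterate_succ_apply, hstep n hn]
      exact ih _ (Phi_lt ε n hn)
  refine ⟨ε, fun n m hn hm => ?_⟩
  obtain ⟨k, hk⟩ := hface (dt n) (dt m) (dt_adj n hn) (dt_adj m hm) (dt_not_block n hn)
    (dt_not_block m hm)
  obtain ⟨h1, h2⟩ := hiter k n hn
  refine ⟨k, ?_⟩
  rw [h2] at hk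
  have := dt_inj ⟨_, h1⟩ ⟨m, hm⟩ hk
  exact congrArg Fin.val this

end Q123.Conf
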