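import Mathlib
import Pool.Agent.Q123.Conf.Lower

/-!
No choice of bits gives a transitive map on the flags.
-/

namespace Q123.Conf

/-- local map, positive -/
def lp : List ℕ :=
    [4, 5, 15, 7, 8, 18, 10, 11, 0, 13, 14, 3, 16, 17, 6, 19, 22, 9, 21, 2, 12]

/-- local map, negative -/
def lm : List ℕ :=
    [15, 10, 22, 18, 13, 2, 0, 16, 5, 3, 19, 8, 6, 21, 11, 9, 4, 14, 12, 7, 17]

/-- local points -/
def lpt : List ℕ :=
    [1, 3, 1, 2, 4, 2, 3, 5, 3, 4, 6, 4, 5, 0, 5, 6, 1, 6, 0, 2, 0]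

/-- global codes of the local flags -/
def Etab : List (List ℕ) :=
    [[16, 17, 18, 19, 20, 21, 22, 23, 24, 25, 26, 27, 28, 29, 30, 31, 32, 33, 34, 35, 11], [37,
    38, 39, 40, 41, 42, 43, 44, 45, 46, 47, 48, 49, 50, 51, 52, 53, 54, 55, 56, 13], [58, 59,
    60, 61, 62, 63, 64, 65, 66, 67, 68, 69, 70, 71, 72, 73, 74, 75, 76, 77, 8], [79, 80, 81,
    82, 83, 84, 85, 86, 87, 88, 89, 90, 91, 92, 93, 94, 95, 96, 97, 98, 14]]

/-- exits of the first kind -/
def exA : List ℕ := [10, 12, 7, 13]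

/-- exits of the second kind -/
def exB : List ℕ := [15, 36, 57, 78]

/-- global code -/
def E (k m : ℕ) : ℕ := (Etab.getD k []).getD m 0

/-- global code or exit -/
def Gl (k m : ℕ) : ℕ := if m < 21 then E k m else if m = 21 then exA.getD k 0 else exB.getD k 0

/-- local face tracing -/
def lstep (r : ℕ → Bool) (m : ℕ) : ℕ :=
  if m < 21 then (if r (lpt.getD m 0) then lp.getD m 0 else lm.getD m 0) else m

lemma E_ok : ∀ k : Fin 4, ∀ m : Fin 21, E k.val m.val < 99 ∧
    pt (E k.val m.val) = 5 + 7 * k.val + lpt.getD m.val 0 ∧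
    nP.getD (E k.val m.val) 0 = Gl k.val (lp.getD m.val 0) ∧
    nM.getD (E k.val m.val) 0 = Gl k.val (lm.getD m.val 0) := by
  decide +kernel

/-- iterate a function a fixed number of times (computable version) -/
def iter (f : ℕ → ℕ) : ℕ → ℕ → ℕ
  | 0, x => x
  | n + 1, x => iter f n (f x)

lemma iter_eq (f : ℕ → ℕ) (n x : ℕ) : iter f n x = f^[n] x := by
  induction n generalizing x with
  | zero => rfl
  | succ n ih => rw [iter, ih, Function.iterate_succ_apply]

/-- local bits -/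
def bits (r0 r1 r2 r3 r4 r5 r6 : Bool) (i : ℕ) : Bool := [r0, r1, r2, r3, r4, r5, r6].getD i false

/-- orbit returns to its start within `n` more steps -/
def returns (f : ℕ → ℕ) (m : ℕ) : ℕ → ℕ → Bool
  | 0, _ => false
  | n + 1, x => (x == m) || (decide (x < 21) && returns f m n (f x))

lemma returns_spec (f : ℕ → ℕ) (m n : ℕ) : ∀ x, returns f m n x = true →
    ∃ j, f^[j] x = m := by
  induction n with
  | zero => intro x h; exact absurd h (by simp [returns])
  | succ n ih =>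
    intro x h
    unfold returns at h
    rw [Bool.or_eq_true, Bool.and_eq_true] at h
    rcases h with h | ⟨-, h⟩
    · exact ⟨0, by simpa using h⟩
    · obtain ⟨j, hj⟩ := ih _ h
      exact ⟨j + 1, by rw [Function.iterate_succ_apply]; exact hj⟩

lemma local_check : ∀ r0 r1 r2 r3 r4 r5 r6 : Bool,
    ((iter (lstep (bits r0 r1 r2 r3 r4 r5 r6)) 21 20 == 21 &&
      iter (lstep (bits r0 r1 r2 r3 r4 r5 r6)) 21 1 == 22) ||
    (List.range 21).any fun m => returns (lstep (bits r0 r1 r2 r3 r4 r5 r6)) m 21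
      (lstep (bits r0 r1 r2 r3 r4 r5 r6) m)) = true := by
  decide +kernel

lemma lstep_congr (r r' : ℕ → Bool) (h : ∀ i, i < 7 → r i = r' i) : lstep r = lstep r' := by
  funext m
  unfold lstep
  by_cases hm : m < 21
  · have key : ∀ m : Fin 21, lpt.getD m.val 0 < 7 := by decide +kernel
    rw [if_pos hm, if_pos hm, h _ (key ⟨m, hm⟩)]
  · rw [if_neg hm, if_neg hm]

lemma local_cases (r : ℕ → Bool) :
    ((lstep r)^[21] 20 = 21 ∧ (lstep r)^[21] 1 = 22) ∨
    ∃ m, m < 21 ∧ ∃ j, (lstep r)^[j + 1] m = m := by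
  have h1 := lstep_congr r (bits (r 0) (r 1) (r 2) (r 3) (r 4) (r 5) (r 6)) (by
    intro i hi
    interval_cases i <;> rfl)
  rw [h1]
  have h2 := local_check (r 0) (r 1) (r 2) (r 3) (r 4) (r 5) (r 6)
  rw [Bool.or_eq_true, Bool.and_eq_true, List.any_eq_true] at h2
  rcases h2 with ⟨h2, h3⟩ | ⟨m, hm, h⟩
  · left
    rw [iter_eq] at h2 h3
    exact ⟨by simpa using h2, by simpa using h3⟩
  · right
    obtain ⟨j, hj⟩ := returns_spec _ _ _ _ h
    exact ⟨m, List.mem_range.1 hm, j, by rw [Function.iterate_succ_apply]; exact hj⟩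

lemma lstep_stuck (r : ℕ → Bool) (m : ℕ) (hm : 21 ≤ m) (j : ℕ) : (lstep r)^[j] m = m := by
  induction j with
  | zero => rfl
  | succ j ih =>
    rw [Function.iterate_succ_apply]
    have : lstep r m = m := if_neg (by omega)
    rw [this, ih]

/-- the bits of a piece -/
def rbits (ε : ℕ → Bool) (k i : ℕ) : Bool := ε (5 + 7 * k + i)

lemma Phi_E (ε : ℕ → Bool) (k m : ℕ) (hk : k < 4) (hm : m < 21) :
    Phi ε (E k m) = Gl k (lstep (rbits ε k) m) := by
  obtain ⟨-, h1, h2, h3⟩ := E_ok ⟨k, hk⟩ ⟨m, hm⟩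
  simp only at h1 h2 h3
  unfold Phi lstep rbits
  rw [h1, if_pos hm]
  split_ifs
  · exact h2
  · exact h3

lemma Phi_iter (ε : ℕ → Bool) (k m : ℕ) (hk : k < 4) (j : ℕ)
    (h : ∀ i, i < j → (lstep (rbits ε k))^[i] m < 21) :
    (Phi ε)^[j] (Gl k m) = Gl k ((lstep (rbits ε k))^[j] m) := by
  induction j with
  | zero => rfl
  | succ j ih =>
    rw [Function.iterate_succ_apply', Function.iterate_succ_apply',
      ih (fun i hi => h i (by omega))]
    have h1 := h j (by omega)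
    have : Gl k ((lstep (rbits ε k))^[j] m) = E k ((lstep (rbits ε k))^[j] m) := if_pos h1
    rw [this, Phi_E ε k _ hk h1]

/-- `Ret ε n y`: starting from `n`, the first outer flag reached is `y` -/
def Ret (ε : ℕ → Bool) (n y : ℕ) : Prop :=
  ∃ j, (Phi ε)^[j] n = y ∧ pt y < 5 ∧ ∀ i, i < j → 5 ≤ pt ((Phi ε)^[i] n)

lemma Ret.refl (ε : ℕ → Bool) (n : ℕ) (h : pt n < 5) : Ret ε n n :=
  ⟨0, rfl, h, fun i hi => absurd hi (by omega)⟩

lemma Ret.pre (ε : ℕ → Bool) (n n' y j : ℕ) (h1 : (Phi ε)^[j] n = n')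
    (h2 : ∀ i, i < j → 5 ≤ pt ((Phi ε)^[i] n)) (h : Ret ε n' y) : Ret ε n y := by
  obtain ⟨j', h3, h4, h5⟩ := h
  refine ⟨j' + j, ?_, h4, ?_⟩
  · rw [Function.iterate_add_apply, h1, h3]
  · intro i hi
    by_cases hij : i < j
    · exact h2 i hij
    · have e : i = (i - j) + j := by omega
      rw [e, Function.iterate_add_apply, h1]
      exact h5 _ (by omega)

lemma pt_Gl (k m : ℕ) (hk : k < 4) (hm : m < 21) : 5 ≤ pt (Gl k m) := by
  obtain ⟨-, h1, -⟩ := E_ok ⟨k, hk⟩ ⟨m, hm⟩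
  simp only at h1
  have : Gl k m = E k m := if_pos hm
  rw [this, h1]
  omega

lemma exit_of (ε : ℕ → Bool) (k m e y N : ℕ) (hk : k < 4) (he : 21 ≤ e)
    (h : (lstep (rbits ε k))^[N] m = e) (hy : Ret ε (Gl k e) y) :
    Ret ε (Gl k m) y := by
  classical
  have hex : ∃ j, 21 ≤ (lstep (rbits ε k))^[j] m := ⟨N, by rw [h]; exact he⟩
  obtain ⟨M, hspec, hmin', hle⟩ : ∃ M, 21 ≤ (lstep (rbits ε k))^[M] m ∧
      (∀ i, i < M → ¬ 21 ≤ (lstep (rbits ε k))^[i] m) ∧ M ≤ N :=
    ⟨Nat.find hex, Nat.find_spec hex, fun i hi => Nat.find_min hex hi,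
      Nat.find_min' hex (by rw [h]; exact he)⟩
  have hmin : ∀ i, i < M → (lstep (rbits ε k))^[i] m < 21 := by
    intro i hi
    have := hmin' i hi
    omega
  have hval : (lstep (rbits ε k))^[M] m = e := by
    have h1 : (lstep (rbits ε k))^[(N - M) + M] m =
        (lstep (rbits ε k))^[N - M] ((lstep (rbits ε k))^[M] m) :=
      Function.iterate_add_apply _ _ _ _
    rw [lstep_stuck _ _ hspec, Nat.sub_add_cancel hle, h] at h1
    exact h1.symm
  refine Ret.pre ε _ (Gl k e) y M ?_ ?_ hy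
  · rw [Phi_iter ε k m hk _ hmin, hval]
  · intro i hi
    rw [Phi_iter ε k m hk i (fun i' hi' => hmin i' (by omega))]
    exact pt_Gl k _ hk (hmin i hi)

/-- every piece reflects -/
lemma reflects (ε : ℕ → Bool) (h : ∀ n m, n < 99 → m < 99 → ∃ k : ℕ, (Phi ε)^[k] n = m) (k : ℕ)
    (hk : k < 4) : (lstep (rbits ε k))^[21] 20 = 21 ∧ (lstep (rbits ε k))^[21] 1 = 22 := by
  rcases local_cases (rbits ε k) with h1 | ⟨m, hm, j, hj⟩
  · exact h1
  · exfalso
    have hall : ∀ i, (lstep (rbits ε k))^[i] m < 21 := by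
      intro i
      by_contra hcon
      have hp : ∀ q : ℕ, (lstep (rbits ε k))^[(j + 1) * q] m = m := by
        intro q
        induction q with
        | zero => rfl
        | succ q ih =>
          rw [Nat.mul_succ, Function.iterate_add_apply, hj, ih]
      have h2 := hp (i + 1)
      have h3 : (j + 1) * (i + 1) = ((j + 1) * (i + 1) - i) + i := by
        have : i ≤ (j + 1) * (i + 1) := by nlinarith
        omega
      rw [h3, Function.iterate_add_apply, lstep_stuck _ _ (by omega)] at h2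
      omega
    have hE : Gl k m = E k m := if_pos hm
    have hlt := (E_ok ⟨k, hk⟩ ⟨m, hm⟩).1
    simp only at hlt
    obtain ⟨i, hi⟩ := h (Gl k m) 0 (by rw [hE]; exact hlt) (by norm_num)
    rw [Phi_iter ε k m hk i (fun i' _ => hall i')] at hi
    have h4 := pt_Gl k _ hk (hall i)
    rw [hi] at h4
    exact absurd h4 (by decide +kernel)

/-- the outer flag reached from a flag at an outer point or at the entrance of a piece -/
def ret (n : ℕ) : ℕ :=
  if n = 11 then 10 else if n = 13 then 12 else if n = 8 then 7 else if n = 14 then 12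
  else if n = 17 then 15 else if n = 38 then 36 else if n = 59 then 57 else if n = 80 then 78
  else n

lemma ret_of_entry (ε : ℕ → Bool)
    (h : ∀ k, k < 4 → (lstep (rbits ε k))^[21] 20 = 21 ∧ (lstep (rbits ε k))^[21] 1 = 22) :
    ∀ n ∈ [11, 13, 8, 14, 17, 38, 59, 80], Ret ε n (ret n) := by
  have hA : ∀ k, k < 4 → ∀ y, Ret ε (Gl k 21) y → Ret ε (Gl k 20) y := fun k hk y hy =>
    exit_of ε k 20 21 y 21 hk (by norm_num) (h k hk).1 hy
  have hB : ∀ k, k < 4 → ∀ y, Ret ε (Gl k 22) y → Ret ε (Gl k 1) y := fun k hk y hy =>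
    exit_of ε k 1 22 y 21 hk (by norm_num) (h k hk).2 hy
  have r1 : Ret ε 13 12 := hA 1 (by norm_num) 12 (Ret.refl ε 12 (by decide +kernel))
  intro n hn
  simp only [List.mem_cons, List.not_mem_nil, or_false] at hn
  rcases hn with rfl | rfl | rfl | rfl | rfl | rfl | rfl | rfl
  · exact hA 0 (by norm_num) 10 (Ret.refl ε 10 (by decide +kernel))
  · exact r1
  · exact hA 2 (by norm_num) 7 (Ret.refl ε 7 (by decide +kernel))
  · exact hA 3 (by norm_num) 12 r1
  · exact hB 0 (by norm_num) 15 (Ret.refl ε 15 (by decide +kernel))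
  · exact hB 1 (by norm_num) 36 (Ret.refl ε 36 (by decide +kernel))
  · exact hB 2 (by norm_num) 57 (Ret.refl ε 57 (by decide +kernel))
  · exact hB 3 (by norm_num) 78 (Ret.refl ε 78 (by decide +kernel))

/-- the flags at outer points -/
def outer : List ℕ := [0, 1, 2, 3, 4, 5, 6, 7, 9, 10, 12, 15, 36, 57, 78]

/-- the first return map on the outer flags -/
def psi (b : ℕ → Bool) (n : ℕ) : ℕ := ret (if b (pt n) then nP.getD n 0 else nM.getD n 0)

lemma next_ok : ∀ n ∈ outer, (nP.getD n 0 ∈ [11, 13, 8, 14, 17, 38, 59, 80] ∨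
    (nP.getD n 0 ∈ outer ∧ ret (nP.getD n 0) = nP.getD n 0)) ∧
    (nM.getD n 0 ∈ [11, 13, 8, 14, 17, 38, 59, 80] ∨
    (nM.getD n 0 ∈ outer ∧ ret (nM.getD n 0) = nM.getD n 0)) ∧ pt n < 5 := by
  decide +kernel

lemma outer_pt : ∀ n ∈ outer, pt n < 5 := fun n hn => (next_ok n hn).2.2

lemma ret_Phi (ε : ℕ → Bool)
    (h : ∀ k, k < 4 → (lstep (rbits ε k))^[21] 20 = 21 ∧ (lstep (rbits ε k))^[21] 1 = 22)
    (n : ℕ) (hn : n ∈ outer) : Ret ε (Phi ε n) (psi ε n) := by
  obtain ⟨h1, h2, -⟩ := next_ok n hn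
  unfold Phi psi
  split_ifs
  · rcases h1 with h1 | ⟨h1, h3⟩
    · exact ret_of_entry ε h _ h1
    · rw [h3]
      exact Ret.refl ε _ (outer_pt _ h1)
  · rcases h2 with h2 | ⟨h2, h3⟩
    · exact ret_of_entry ε h _ h2
    · rw [h3]
      exact Ret.refl ε _ (outer_pt _ h2)

lemma first_return (ε : ℕ → Bool) (S : List ℕ)
    (hS : ∀ y ∈ S, ∃ y' ∈ S, Ret ε (Phi ε y) y') (n : ℕ) :
    ∀ y ∈ S, pt ((Phi ε)^[n] y) < 5 → (Phi ε)^[n] y ∈ S := by
  induction n using Nat.strong_induction_on with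
  | _ n ih =>
    intro y hy hpt
    rcases Nat.eq_zero_or_pos n with rfl | hpos
    · exact hy
    · obtain ⟨y', hy', j, h1, h2, h3⟩ := hS y hy
      by_cases hj : n < j + 1
      · have h4 := h3 (n - 1) (by omega)
        rw [← Function.iterate_succ_apply, Nat.succ_eq_add_one, show n - 1 + 1 = n by omega] at h4
        omega
      · have e : n = (n - (j + 1)) + (j + 1) := by omega
        have h5 : (Phi ε)^[n] y = (Phi ε)^[n - (j + 1)] y' := by
          conv_lhs => rw [e]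
          rw [Function.iterate_add_apply, Function.iterate_succ_apply, h1]
        rw [h5] at hpt ⊢
        exact ih _ (by omega) y' hy' hpt

/-- outer bits -/
def obits (e0 e1 e2 e3 e4 : Bool) (i : ℕ) : Bool := [e0, e1, e2, e3, e4].getD i false

/-- orbit of the flag `0` -/
def orb (b : ℕ → Bool) : List ℕ := (List.range 7).map fun j => iter (psi b) j 0

lemma outer_check : ∀ e0 e1 e2 e3 e4 : Bool,
    ((orb (obits e0 e1 e2 e3 e4)).all fun y => (orb (obits e0 e1 e2 e3 e4)).contains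
      (psi (obits e0 e1 e2 e3 e4) y) && outer.contains y) = true ∧
    (outer.any fun y => !(orb (obits e0 e1 e2 e3 e4)).contains y) = true := by
  decide +kernel

lemma psi_congr (b b' : ℕ → Bool) (h : ∀ i, i < 5 → b i = b' i) (n : ℕ) (hn : n ∈ outer) :
    psi b n = psi b' n := by
  unfold psi
  rw [h _ (outer_pt n hn)]

lemma outer_lt : ∀ n ∈ outer, n < 99 := by decide +kernel

lemma not_transitive (ε : ℕ → Bool) :
    ¬ ∀ n m, n < 99 → m < 99 → ∃ k : ℕ, (Phi ε)^[k] n = m := by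
  intro h
  have hrefl := reflects ε h
  obtain ⟨h1, h2⟩ := outer_check (ε 0) (ε 1) (ε 2) (ε 3) (ε 4)
  have hb : ∀ i, i < 5 → ε i = obits (ε 0) (ε 1) (ε 2) (ε 3) (ε 4) i := by
    intro i hi
    interval_cases i <;> rfl
  generalize obits (ε 0) (ε 1) (ε 2) (ε 3) (ε 4) = b at h1 h2 hb
  rw [List.all_eq_true] at h1
  rw [List.any_eq_true] at h2
  obtain ⟨z, hz, hz'⟩ := h2
  have hS : ∀ y ∈ orb b, ∃ y' ∈ orb b, Ret ε (Phi ε y) y' := by
    intro y hy
    have h3 := h1 y hy
    rw [Bool.and_eq_true, List.contains_iff_mem, List.contains_iff_mem] at h3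
    refine ⟨psi b y, h3.1, ?_⟩
    rw [← psi_congr ε b hb y h3.2]
    exact ret_Phi ε hrefl y h3.2
  have h0 : 0 ∈ orb b := by
    unfold orb
    rw [List.mem_map]
    exact ⟨0, by simp, rfl⟩
  obtain ⟨k, hk⟩ := h 0 z (by norm_num) (outer_lt z hz)
  have := first_return ε (orb b) hS k 0 h0 (by rw [hk]; exact outer_pt z hz)
  rw [hk] at this
  rw [← List.contains_iff_mem] at this
  rw [this] at hz'
  exact absurd hz' (by decide)

lemma not_upper2 : ¬ X0.UpperEmbeddableIn om2 := by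
  intro h
  obtain ⟨ε, hε⟩ := exists_bits h
  exact not_transitive ε hε

end Q123.Conf
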