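import Mathlib
import Pool.Agent.Q123.Conf.Example

/-!
The configuration is upper embeddable in the standard orientation.
-/

namespace Q123.Conf

/-- neighbours of a point -/
def nbr (p : Fin 33) (x : Fin 6) : Fin 33 :=
  bl (fl p (Fin.ofNat 3 (x.val / 2))).1 ((fl p (Fin.ofNat 3 (x.val / 2))).2 + 1 +
    Fin.ofNat 3 (x.val % 2))

lemma nbr_mem : ∀ p : Fin 33, ∀ t i : Fin 3, bl (fl p t).1 i = p ∨
    ∃ x : Fin 6, nbr p x = bl (fl p t).1 i := by decide +kernel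

lemma nbr_adj (p : Fin 33) (x : Fin 6) : X0.graph.Adj p (nbr p x) := by
  have h : ∀ p x, nbr p x ≠ p := by decide +kernel
  exact X0_adj_of p _ _ (h p x)

lemma adj_iff (p q : Fin 33) : X0.graph.Adj p q ↔ ∃ x, nbr p x = q := by
  constructor
  · rintro ⟨hne, b, i, j, hi, hj⟩
    obtain ⟨t, ht⟩ := exists_fl b i
    have hi' : bl b i = p := hi
    have hj' : bl b j = q := hj
    rw [hi'] at ht
    rcases nbr_mem p t j with h | ⟨x, hx⟩
    · rw [ht] at h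
      exact absurd (h.symm.trans hj') hne
    · rw [ht] at hx
      exact ⟨x, hx.trans hj'⟩
  · rintro ⟨x, rfl⟩
    exact nbr_adj p x

/-- rotations for the first orientation -/
def rtab : List (List ℕ) :=
    [[1, 26, 12, 4, 2, 3], [3, 19, 2, 8, 6, 0], [4, 15, 13, 1, 19, 0], [0, 5, 4, 22, 20, 1],
    [0, 29, 27, 3, 5, 2], [9, 4, 3, 11, 7, 10], [8, 9, 7, 11, 10, 1], [9, 5, 11, 10, 8, 6], [1,
    11, 9, 7, 10, 6], [6, 8, 11, 5, 10, 7], [7, 9, 5, 6, 11, 8], [8, 7, 5, 10, 6, 9], [16, 0,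
    26, 18, 14, 17], [15, 18, 17, 16, 14, 2], [16, 12, 18, 17, 15, 13], [2, 18, 16, 14, 17,
    13], [13, 15, 18, 12, 17, 14], [14, 16, 12, 13, 18, 15], [15, 17, 13, 14, 12, 16], [23, 25,
    21, 2, 1, 24], [22, 23, 21, 25, 24, 3], [23, 19, 25, 24, 22, 20], [3, 25, 23, 21, 24, 20],
    [20, 22, 25, 19, 24, 21], [21, 20, 25, 23, 19, 22], [22, 21, 19, 24, 20, 23], [30, 12, 0,
    32, 28, 31], [29, 32, 31, 30, 28, 4], [30, 31, 29, 26, 32, 27], [4, 28, 31, 32, 30, 27],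
    [27, 29, 32, 26, 31, 28], [28, 27, 32, 30, 26, 29], [29, 31, 27, 28, 26, 30]]

/-- the rotation -/
def rt (p q : Fin 33) : Fin 33 :=
  Fin.ofNat 33 ((rtab.getD p.val []).getD (((rtab.getD p.val []).idxOf q.val + 1) % 6) 0)

/-- the rotation system for the first orientation -/
def R1 : RotationSystem X0.graph where
  rot := rt
  adj p q h := by
    have key : ∀ p : Fin 33, ∀ x : Fin 6, ∃ y : Fin 6, nbr p y = rt p (nbr p x) := by
      decide +kernel
    rw [adj_iff] at h ⊢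
    obtain ⟨x, rfl⟩ := h
    exact key p x
  cyclic p q q' h h' := by
    have key : ∀ p : Fin 33, ∀ x y : Fin 6, ∃ k : Fin 6, (rt p)^[k.val] (nbr p x) = nbr p y := by
      decide +kernel
    rw [adj_iff] at h h'
    obtain ⟨x, rfl⟩ := h
    obtain ⟨y, rfl⟩ := h'
    obtain ⟨k, hk⟩ := key p x y
    exact ⟨k.val, hk⟩

/-- the first orientation -/
def om1 : Fin 33 → Bool := fun _ => true

/-- the orbit of the big face -/
def seqT : List ℕ :=
    [0, 14, 96, 88, 92, 13, 54, 46, 50, 12, 5, 80, 84, 97, 91, 85, 89, 93, 90, 82, 86, 95, 83,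
    87, 79, 94, 98, 81, 78, 9, 59, 68, 77, 65, 74, 57, 1, 8, 70, 64, 58, 62, 66, 63, 60, 73,
    67, 71, 75, 72, 69, 61, 76, 7, 3, 2, 11, 33, 30, 22, 16, 20, 24, 21, 18, 31, 25, 29, 10, 4,
    38, 47, 51, 43, 37, 52, 56, 44, 48, 40, 55, 49, 53, 41, 45, 42, 39, 36, 6, 17, 26, 35, 23,
    27, 19, 34, 28, 32, 15]

/-- positions in the orbit -/
def posT : List ℕ :=
    [0, 36, 55, 54, 69, 10, 88, 53, 37, 29, 68, 56, 9, 5, 1, 98, 60, 89, 64, 94, 61, 63, 59,
    92, 62, 66, 90, 93, 96, 67, 58, 65, 97, 57, 95, 91, 87, 74, 70, 86, 79, 83, 85, 73, 77, 84,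
    7, 71, 78, 81, 8, 72, 75, 82, 6, 80, 76, 35, 40, 30, 44, 51, 41, 43, 39, 33, 42, 46, 31,
    50, 38, 47, 49, 45, 34, 48, 52, 32, 28, 24, 11, 27, 19, 22, 12, 15, 20, 23, 3, 16, 18, 14,
    4, 17, 25, 21, 2, 13, 26]

/-- the dart of a flag -/
def nd (n : ℕ) : Fin 33 × Fin 33 :=
  (bl (Fin.ofNat 33 (n / 3)) (Fin.ofNat 3 n + 1), bl (Fin.ofNat 33 (n / 3)) (Fin.ofNat 3 n))

lemma seq_step : ∀ n : Fin 99, R1.step (nd (seqT.getD n.val 0)) =
    nd (seqT.getD ((n.val + 1) % 99) 0) := by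
  have : ∀ n : Fin 99, ((nd (seqT.getD n.val 0)).2, rt (nd (seqT.getD n.val 0)).2
      (nd (seqT.getD n.val 0)).1) = nd (seqT.getD ((n.val + 1) % 99) 0) := by decide +kernel
  exact this

lemma seq_iter (k : ℕ) : ∀ n : ℕ, R1.step^[k] (nd (seqT.getD (n % 99) 0)) =
    nd (seqT.getD ((n + k) % 99) 0) := by
  induction k with
  | zero => intro n; rfl
  | succ k ih =>
    intro n
    rw [Function.iterate_succ_apply]
    have h := seq_step ⟨n % 99, Nat.mod_lt _ (by norm_num)⟩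
    simp only at h
    rw [h]
    have e : (n % 99 + 1) % 99 = (n + 1) % 99 := by omega
    rw [e, ih (n + 1)]
    congr 3
    omega

lemma pos_ok : ∀ n : Fin 99, posT.getD n.val 0 < 99 ∧ seqT.getD (posT.getD n.val 0) 0 = n.val := by
  decide +kernel

lemma big_face (n n' : ℕ) (hn : n < 99) (hn' : n' < 99) : ∃ k, R1.step^[k] (nd n) = nd n' := by
  obtain ⟨h1, h2⟩ := pos_ok ⟨n, hn⟩
  obtain ⟨h3, h4⟩ := pos_ok ⟨n', hn'⟩
  simp only at h1 h2 h3 h4
  refine ⟨posT.getD n' 0 + (99 - posT.getD n 0), ?_⟩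
  have h5 := seq_iter (posT.getD n' 0 + (99 - posT.getD n 0)) (posT.getD n 0)
  rw [Nat.mod_eq_of_lt h1, h2] at h5
  rw [h5]
  have e : (posT.getD n 0 + (posT.getD n' 0 + (99 - posT.getD n 0))) % 99 = posT.getD n' 0 := by
    omega
  rw [e, h4]

lemma not_block (d : Fin 33 × Fin 33) (hd : X0.graph.Adj d.1 d.2)
    (hb : ¬ X0.IsBlockDart om1 d) : ∃ n, n < 99 ∧ nd n = d := by
  obtain ⟨hne, b, i, j, hi, hj⟩ := hd
  have hi' : bl b i = d.1 := hi
  have hj' : bl b j = d.2 := hj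
  have h1 : i ≠ j := by
    rintro rfl
    exact hne (hi'.symm.trans hj')
  have h2 : j ≠ i + 1 := by
    rintro rfl
    apply hb
    refine ⟨b, i, ?_⟩
    show d = (bl b i, bl b (i + 1))
    rw [hi', hj']
  have key0 : ∀ i j : Fin 3, i ≠ j → j ≠ i + 1 → i = j + 1 := by decide
  have h3 : i = j + 1 := key0 i j h1 h2
  refine ⟨3 * b.val + j.val, by omega, ?_⟩
  have key : ∀ b : Fin 33, ∀ j : Fin 3, nd (3 * b.val + j.val) = (bl b (j + 1), bl b j) := by
    decide +kernel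
  rw [key, ← h3, hi', hj']

lemma upper1 : X0.UpperEmbeddableIn om1 := by
  refine ⟨R1, ?_, ?_⟩
  · have : ∀ b i, (bl b (i + 1), rt (bl b (i + 1)) (bl b i)) = (bl b (i + 1), bl b (i + 1 + 1)) := by
      decide +kernel
    exact this
  · intro d d' hd hd' hb hb'
    obtain ⟨n, hn, rfl⟩ := not_block d hd hb
    obtain ⟨n', hn', rfl⟩ := not_block d' hd' hb'
    exact big_face n n' hn hn'

end Q123.Conf
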